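import Mathlib

set_option autoImplicit false

namespace Pool.Agent.H.MP_7a60ac_an

open Complex Metric Finset PowerSeries Filter Topology
open scoped Real ComplexConjugate

/-- Taylor coefficient -/
noncomputable def co (f : ℂ → ℂ) (n : ℕ) : ℂ := iteratedDeriv n f 0 / (n.factorial : ℂ)

/-- Taylor series -/
noncomputable def ts (f : ℂ → ℂ) : ℂ⟦X⟧ := PowerSeries.mk (co f)

variable {f g : ℂ → ℂ}

theorem ts_mul (hf : AnalyticAt ℂ f 0) (hg : AnalyticAt ℂ g 0) :
    ts (fun z => f z * g z) = ts f * ts g := by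
  ext n
  simp only [ts, coeff_mk, coeff_mul, Nat.sum_antidiagonal_eq_sum_range_succ_mk, co]
  rw [iteratedDeriv_fun_mul hf.contDiffAt hg.contDiffAt, sum_div]
  refine sum_congr rfl fun i hi => ?_
  have h := Nat.choose_mul_factorial_mul_factorial (Nat.lt_succ_iff.1 (mem_range.1 hi))
  have h1 : (i.factorial : ℂ) ≠ 0 := by exact_mod_cast i.factorial_ne_zero
  have h2 : ((n - i).factorial : ℂ) ≠ 0 := by exact_mod_cast (n - i).factorial_ne_zero
  have h3 : (n.choose i : ℂ) ≠ 0 := by
    exact_mod_cast (Nat.choose_pos (Nat.lt_succ_iff.1 (mem_range.1 hi))).ne'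
  rw [← h]; push_cast; field_simp

theorem ts_add (hf : AnalyticAt ℂ f 0) (hg : AnalyticAt ℂ g 0) :
    ts (fun z => f z + g z) = ts f + ts g := by
  ext n
  simp only [ts, coeff_mk, map_add, co]
  rw [iteratedDeriv_fun_add hf.contDiffAt hg.contDiffAt, add_div]

theorem ts_cmul (c : ℂ) : ts (fun z => c * f z) = C c * ts f := by
  ext n
  simp only [ts, coeff_mk, coeff_C_mul, co, iteratedDeriv_const_mul_field, mul_div_assoc]

theorem ts_id : ts (fun z => z) = X := by
  ext n
  simp only [ts, coeff_mk, co, iteratedDeriv_fun_id_zero, coeff_X]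
  split_ifs with h <;> simp [h]

theorem ts_deriv : ts (deriv f) = d⁄dX ℂ (ts f) := by
  ext n
  have h1 : (n.factorial : ℂ) ≠ 0 := by exact_mod_cast n.factorial_ne_zero
  have h2 : (n : ℂ) + 1 ≠ 0 := by exact_mod_cast n.succ_ne_zero
  simp only [ts, coeff_mk, co, coeff_derivative, iteratedDeriv_succ', Nat.factorial_succ]
  push_cast; field_simp

theorem ts_congr (h : f =ᶠ[𝓝 0] g) : ts f = ts g := by
  ext n; simp only [ts, coeff_mk, co, h.iteratedDeriv_eq]

theorem ts_pow (hf : AnalyticAt ℂ f 0) (i : ℕ) : ts (fun z => f z * z ^ i) = ts f * X ^ i := by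
  induction i with
  | zero => simp
  | succ i ih =>
    simp only [pow_succ, ← mul_assoc]
    rw [ts_mul (f := fun z => f z * z ^ i) (by fun_prop) (by fun_prop), ih, ts_id]

/-- positivity of the truncated Toeplitz form -/
def TP (n : ℕ) (c : ℕ → ℂ) : Prop :=
  ∀ x : ℕ → ℂ, 0 ≤ (∑ j ∈ range (n + 1), ∑ i ∈ range (j + 1), c (j - i) * x i * conj (x j)).re

theorem avg (hf : DifferentiableOn ℂ f (ball 0 1)) {r : ℝ} (h0 : 0 < r) (h1 : r < 1) (i j : ℕ) :
    Real.circleAverage (fun z => f z * z ^ i / z ^ j) 0 r = if i ≤ j then co f (j - i) else 0 := by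
  have h : DifferentiableOn ℂ (fun z => f z * z ^ i) (closedBall 0 r) :=
    (hf.mono (closedBall_subset_ball h1)).mul (by fun_prop)
  have h2 := h.circleIntegral_one_div_sub_center_pow_smul h0 j
  have h3 := congrArg (coeff j) (ts_pow (hf.analyticAt (ball_mem_nhds 0 one_pos)) i)
  simp only [ts, coeff_mul_X_pow', coeff_mk] at h3
  rw [Real.circleAverage_eq_circleIntegral h0.ne', ← h3, co]
  have e : (fun z : ℂ => (z - 0)⁻¹ • (f z * z ^ i / z ^ j)) =
      fun z => (1 / (z - 0) ^ (j + 1)) • (f z * z ^ i) := by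
    ext z; simp only [sub_zero, smul_eq_mul, pow_succ, div_eq_mul_inv, mul_inv]; ring
  rw [e, h2, smul_eq_mul, smul_eq_mul]
  field_simp

theorem tp_r (hf : DifferentiableOn ℂ f (ball 0 1)) (hp : ∀ z ∈ ball (0 : ℂ) 1, 0 ≤ (f z).re)
    {r : ℝ} (h0 : 0 < r) (h1 : r < 1) (n : ℕ) : TP n fun k => co f k * r ^ k := fun x => by
  have r0 : (r : ℂ) ≠ 0 := by exact_mod_cast h0.ne'
  have hs : ∀ z ∈ sphere (0 : ℂ) |r|, ‖z‖ = r := fun z hz => by simpa [abs_of_pos h0] using hz
  have z0 : ∀ z ∈ sphere (0 : ℂ) |r|, z ≠ 0 := fun z hz h => by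
    have := hs z hz; rw [h, norm_zero] at this; exact h0.ne this
  have ci : ∀ i j : ℕ, CircleIntegrable (fun z => (x i * conj (x j) * r ^ j / r ^ i) •
      (f z * z ^ i / z ^ j)) 0 r := fun i j => by
    have c : ContinuousOn f (sphere 0 |r|) := hf.continuousOn.mono fun z hz => by
      simpa [hs z hz] using h1
    exact ContinuousOn.circleIntegrable' (by fun_prop (disch := exact fun z hz => pow_ne_zero _ (z0 z hz)))
  have ci2 : ∀ j : ℕ, CircleIntegrable (fun z => ∑ i ∈ range (n + 1),
      (x i * conj (x j) * r ^ j / r ^ i) • (f z * z ^ i / z ^ j)) 0 r := fun j =>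
    CircleIntegrable.fun_sum _ fun i _ => ci i j
  have e : ∑ j ∈ range (n + 1), ∑ i ∈ range (j + 1), co f (j - i) * r ^ (j - i) * x i * conj (x j) =
      Real.circleAverage (fun z => ∑ j ∈ range (n + 1), ∑ i ∈ range (n + 1),
        (x i * conj (x j) * r ^ j / r ^ i) • (f z * z ^ i / z ^ j)) 0 r := by
    rw [Real.circleAverage_fun_sum fun j _ => ci2 j]
    refine sum_congr rfl fun j hj => ?_
    rw [Real.circleAverage_fun_sum fun i _ => ci i j]
    simp only [Real.circleAverage_fun_smul, avg hf h0 h1]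
    simp only [smul_eq_mul, mul_ite, mul_zero]
    rw [← sum_filter, show (range (n + 1)).filter (· ≤ j) = range (j + 1) by
      ext i; simp only [mem_filter, mem_range] at hj ⊢; omega]
    refine sum_congr rfl fun i hi => ?_
    rw [pow_sub₀ _ r0 (Nat.lt_succ_iff.1 (mem_range.1 hi))]; ring
  rw [e, ← reCLM_apply, ← reCLM.circleAverage_comp_comm (CircleIntegrable.fun_sum _ fun j _ => ci2 j)]
  refine Real.circleAverage_nonneg_of_nonneg fun z hz => ?_
  have hc : conj z = r ^ 2 / z := by
    rw [eq_div_iff (z0 z hz), mul_comm, mul_conj, normSq_eq_norm_sq, hs z hz]; simp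
  have e2 : ∑ j ∈ range (n + 1), ∑ i ∈ range (n + 1),
      (x i * conj (x j) * r ^ j / r ^ i) • (f z * z ^ i / z ^ j) =
      f z * normSq (∑ i ∈ range (n + 1), x i * (z / r) ^ i) := by
    rw [← mul_conj, map_sum, sum_mul_sum, mul_sum, sum_comm]
    refine sum_congr rfl fun i _ => ?_
    rw [mul_sum]
    refine sum_congr rfl fun j _ => ?_
    have := z0 z hz
    simp only [map_mul, map_pow, map_div₀, conj_ofReal, hc, smul_eq_mul]
    rw [show (r : ℂ) ^ 2 / z / r = r / z by field_simp, div_pow, div_pow]; ring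
  simp only [Function.comp, reCLM_apply, e2, re_mul_ofReal]
  exact mul_nonneg (hp z (by simpa [hs z hz] using h1)) (normSq_nonneg _)

variable {n : ℕ} {p A : ℕ → ℂ} {α : ℝ}

theorem tp_one (h : ∀ r : ℝ, 0 < r → r < 1 → TP n fun k => p k * r ^ k) : TP n p := fun x => by
  have c : Continuous fun r : ℝ => (∑ j ∈ range (n + 1), ∑ i ∈ range (j + 1),
      p (j - i) * r ^ (j - i) * x i * conj (x j)).re := by fun_prop
  have := ge_of_tendsto ((c.tendsto 1).mono_left (nhdsWithin_le_nhds (s := Set.Iio 1)))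
    (mem_of_superset (Ioo_mem_nhdsLT one_pos) fun r hr => h r hr.1 hr.2 x)
  simpa using this

theorem tp_int (h : ∀ r : ℝ, 0 < r → r < 1 → TP n fun k => p k * r ^ k) (h0 : 0 < α) :
    TP n fun k => p k / (k + α) := fun x => by
  have ii : ∀ k : ℕ, IntervalIntegrable (fun t : ℝ => t ^ (k + α - 1)) MeasureTheory.volume 0 1 :=
    fun k => intervalIntegral.intervalIntegrable_rpow' (by have := k.cast_nonneg (α := ℝ); linarith)
  have e : (∑ j ∈ range (n + 1), ∑ i ∈ range (j + 1),
      p (j - i) / ((j - i : ℕ) + α) * x i * conj (x j)).re = ∫ t in (0 : ℝ)..1,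
      ∑ j ∈ range (n + 1), ∑ i ∈ range (j + 1),
        (p (j - i) * x i * conj (x j)).re * t ^ ((j - i : ℕ) + α - 1) := by
    rw [intervalIntegral.integral_finsetSum fun j _ => (IntervalIntegrable.sum (range (j + 1))
      fun i _ => (ii (j - i)).const_mul (p (j - i) * x i * conj (x j)).re).congr
        fun t _ => by simp only [Finset.sum_apply], re_sum]
    refine sum_congr rfl fun j _ => ?_
    rw [intervalIntegral.integral_finsetSum fun i _ => (ii _).const_mul _, re_sum]
    refine sum_congr rfl fun i _ => ?_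
    have : (0 : ℝ) < (j - i : ℕ) + α := by positivity
    rw [intervalIntegral.integral_const_mul, integral_rpow (.inl (by linarith)), sub_add_cancel,
      Real.zero_rpow this.ne', Real.one_rpow, sub_zero, ← re_mul_ofReal]
    congr 1; push_cast; ring
  rw [e, intervalIntegral.integral_of_le zero_le_one, MeasureTheory.integral_Ioc_eq_integral_Ioo]
  refine MeasureTheory.setIntegral_nonneg measurableSet_Ioo fun t ht => ?_
  have := mul_nonneg (h t ht.1 ht.2 x) (Real.rpow_nonneg ht.1.le (α - 1))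
  simp only [re_sum, sum_mul] at this
  refine this.trans_eq (sum_congr rfl fun j _ => sum_congr rfl fun i _ => ?_)
  rw [add_sub_assoc, Real.rpow_add ht.1, Real.rpow_natCast, ← mul_assoc,
    ← re_mul_ofReal _ (t ^ (j - i))]
  congr 2; push_cast; ring

theorem bridge {i j : ℕ} (h : i ≤ j) (hj : j ≤ n) :
    ∑ k ∈ range n, ∑ l ∈ range n, ((if k < i then 1 else 0) - (if l < i then 1 else 0) : ℝ) *
      ((if k < j then 1 else 0) - (if l < j then 1 else 0)) = 2 * (i * (n - j)) := by
  have s : ∀ m ≤ n, ∑ k ∈ range n, (if k < m then 1 else 0 : ℝ) = m := fun m hm => by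
    rw [← sum_filter, show (range n).filter (· < m) = range m by
      ext k; simp only [mem_filter, mem_range]; omega]; simp
  have t : ∀ k, (if k < i then 1 else 0 : ℝ) * (if k < j then 1 else 0) = if k < i then 1 else 0 :=
    fun k => by split_ifs <;> first | omega | simp
  simp only [sub_mul, mul_sub, t, sum_sub_distrib, ← mul_sum, ← sum_mul, s i (h.trans hj), s j hj,
    sum_const, card_range, nsmul_eq_mul]
  ring

theorem star (hp : TP n p) (hA : TP n A) (h0 : 0 < α) (e : ∀ k, α * p k = (k + α) * A k)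
    (x : ℕ → ℂ) : 0 ≤ (∑ j ∈ range (n + 1), ∑ i ∈ range (j + 1),
      (((j + α) * (n - i + α) : ℝ) : ℂ) * (A (j - i) * x i * conj (x j))).re := by
  have h1 := sum_nonneg fun k (_ : k ∈ range n) => sum_nonneg fun l (_ : l ∈ range n) =>
    hA fun i => (((if k < i then 1 else 0) - (if l < i then 1 else 0) : ℝ) : ℂ) * x i
  have h2 := mul_nonneg (show 0 ≤ (n + α) * α by positivity) (hp x)
  refine (add_nonneg (div_nonneg h1 zero_le_two) h2).trans_eq ?_
  simp only [← re_sum, ← re_ofReal_mul, ← div_ofNat_re, ← add_re]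
  congr 1
  rw [sum_congr rfl fun k _ => sum_comm, sum_comm, sum_div, mul_sum, ← sum_add_distrib]
  refine sum_congr rfl fun j hj => ?_
  rw [sum_congr rfl fun k _ => sum_comm, sum_comm, sum_div, mul_sum, ← sum_add_distrib]
  refine sum_congr rfl fun i hi => ?_
  have hij := Nat.lt_succ_iff.1 (mem_range.1 hi)
  have b := congrArg ((↑) : ℝ → ℂ) (bridge hij (Nat.lt_succ_iff.1 (mem_range.1 hj)))
  have e1 := e (j - i)
  rw [Nat.cast_sub hij] at e1
  have e2 : ∀ a b : ℝ, A (j - i) * (a * x i) * conj (b * x j) =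
      ((a * b : ℝ) : ℂ) * (A (j - i) * x i * conj (x j)) := fun a b => by
    simp only [map_mul, conj_ofReal]; push_cast; ring
  simp only [e2, ← sum_mul, ← ofReal_sum]
  rw [b]; push_cast
  linear_combination (n + α) * x i * conj (x j) * e1

end Pool.Agent.H.MP_7a60ac_an
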