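import Pool.Agent.H.MP_7a60ac_an.A

set_option autoImplicit false

namespace Pool.Agent.H.MP_7a60ac_an

open Complex Metric Finset PowerSeries Filter Topology
open scoped Real ComplexConjugate

theorem key {m : ℕ} {p A y : ℕ → ℂ} {α l : ℝ} (hp : TP (m + 1) p) (hA : TP (m + 1) A) (h0 : 0 < α)
    (e : ∀ k, α * p k = (k + α) * A k) (A0 : A 0 = 1) (l0 : 0 ≤ l) (l1 : l ≤ 1) (y0 : y 0 = 1)
    (hy : ∀ j < m, y (j + 1) = -l * ∑ i ∈ range (j + 1), A (j + 1 - i) * y i) :
    ‖∑ i ∈ range (m + 1), A (m + 1 - i) * y i‖ ≤ 2 * α / (m + 1 + α) := by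
  obtain ⟨σ, hσ⟩ : ∃ σ : ℕ → ℂ, ∀ j, σ j = ∑ i ∈ range j, A (j - i) * y i := ⟨_, fun _ => rfl⟩
  obtain ⟨z, hz⟩ : ∃ z, z = Function.update y (m + 1) (-σ (m + 1) / 2) := ⟨_, rfl⟩
  have zy : ∀ i < m + 1, z i = y i := fun i hi => by rw [hz, Function.update_of_ne hi.ne]
  have h := star hp hA h0 e fun i => z i / (((m + 1 : ℕ) - i + α : ℝ) : ℂ)
  have w : ∀ j ≤ m + 1, (0 : ℝ) < (m + 1 : ℕ) - j + α := fun j hj => by
    have : (j : ℝ) ≤ (m + 1 : ℕ) := by exact_mod_cast hj
    linarith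
  have e1 : ∀ j ∈ range (m + 1 + 1), (∑ i ∈ range (j + 1),
      (((j + α) * ((m + 1 : ℕ) - i + α) : ℝ) : ℂ) * (A (j - i) *
        (z i / (((m + 1 : ℕ) - i + α : ℝ) : ℂ)) * conj (z j / (((m + 1 : ℕ) - j + α : ℝ) : ℂ)))).re =
      (j + α) / ((m + 1 : ℕ) - j + α) * ((σ j + z j) * conj (z j)).re := fun j hj => by
    have hj := Nat.lt_succ_iff.1 (mem_range.1 hj)
    have : σ j + z j = ∑ i ∈ range (j + 1), A (j - i) * z i := by
      rw [sum_range_succ, hσ, Nat.sub_self, A0, one_mul]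
      exact congrArg (· + z j) (sum_congr rfl fun i hi => by
        rw [zy i ((mem_range.1 hi).trans_le hj)])
    rw [← re_ofReal_mul, this, sum_mul, mul_sum]
    refine congrArg re (sum_congr rfl fun i hi => ?_)
    have h1 := ofReal_ne_zero.2 (w i ((Nat.lt_succ_iff.1 (mem_range.1 hi)).trans hj)).ne'
    have h2 := ofReal_ne_zero.2 (w j hj).ne'
    rw [map_div₀, conj_ofReal, ofReal_mul, ofReal_div]
    field_simp
  rw [re_sum, sum_congr rfl e1, sum_range_succ, sum_range_succ'] at h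
  have mid : ∑ j ∈ range m, (((j + 1 : ℕ) : ℝ) + α) / ((m + 1 : ℕ) - (j + 1 : ℕ) + α) *
      ((σ (j + 1) + z (j + 1)) * conj (z (j + 1))).re ≤ 0 := sum_nonpos fun j hj => by
    have hj := mem_range.1 hj
    refine mul_nonpos_of_nonneg_of_nonpos (div_nonneg (by positivity) (w _ (by omega)).le) ?_
    rw [zy _ (by omega), hy j hj, ← hσ, show (σ (j + 1) + -l * σ (j + 1)) * conj (-l * σ (j + 1)) =
      (-(l * (1 - l) * normSq (σ (j + 1))) : ℝ) by
        simp only [map_mul, map_neg, conj_ofReal]; push_cast; rw [← mul_conj]; ring, ofReal_re]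
    have := normSq_nonneg (σ (j + 1))
    have : 0 ≤ 1 - l := by linarith
    exact neg_nonpos.2 (by positivity)
  have e0 : ((σ 0 + z 0) * conj (z 0)).re = 1 := by simp [hσ, zy 0 m.succ_pos, y0]
  have e2 : ((σ (m + 1) + z (m + 1)) * conj (z (m + 1))).re = -(‖σ (m + 1)‖ ^ 2 / 4) := by
    rw [hz, Function.update_self, show (σ (m + 1) + -σ (m + 1) / 2) * conj (-σ (m + 1) / 2) =
      (-(normSq (σ (m + 1)) / 4) : ℝ) by
        simp only [map_div₀, map_neg, map_ofNat]; push_cast; rw [← mul_conj]; ring, ofReal_re,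
      normSq_eq_norm_sq]
  rw [e0, e2] at h
  rw [← hσ]
  have h3 : (m + 1 + α) / α * (‖σ (m + 1)‖ ^ 2 / 4) ≤ α / (m + 1 + α) := by
    push_cast at h mid; simp only [sub_self, zero_add, sub_zero] at h; linarith
  have h4 : (0 : ℝ) < m + 1 + α := by positivity
  rw [div_mul_eq_mul_div, div_le_div_iff₀ h0 h4] at h3
  rw [le_div_iff₀ h4]
  exact abs_le_of_sq_le_sq' (by nlinarith) (by positivity) |>.2

theorem pow_zero_coeff {a : ℂ⟦X⟧} (a0 : constantCoeff a = 0) {k n : ℕ} (h : k < n) :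
    coeff k (a ^ n) = 0 :=
  X_pow_dvd_iff.1 (pow_dvd_pow_of_dvd (X_dvd_iff.2 a0) n) k h

theorem key2 {m : ℕ} {p A : ℕ → ℂ} {α l : ℝ} (hp : TP (m + 1) p) (hA : TP (m + 1) A) (h0 : 0 < α)
    (e : ∀ k, α * p k = (k + α) * A k) (A0 : A 0 = 1) (l0 : 0 ≤ l) (l1 : l ≤ 1) :
    ‖∑ k ∈ range (m + 2), (-1) ^ k * coeff (m + 1) ((mk A - 1 : ℂ⟦X⟧) ^ (k + 1)) * (l : ℂ) ^ k‖ ≤
      2 * α / (m + 1 + α) := by
  obtain ⟨a, ha⟩ : ∃ a, a = mk A - 1 := ⟨_, rfl⟩
  have a0 : constantCoeff a = 0 := by simp [ha, A0]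
  obtain ⟨Y, hY⟩ : ∃ Y, Y = ∑ k ∈ range (m + 2), (C (-l : ℂ) * a) ^ k := ⟨_, rfl⟩
  have s : ∀ j, coeff j (Y * a) = ∑ i ∈ range j, A (j - i) * coeff i Y := fun j => by
    rw [coeff_mul, Nat.sum_antidiagonal_eq_sum_range_succ_mk, sum_range_succ, Nat.sub_self,
      coeff_zero_eq_constantCoeff_apply, a0, mul_zero, add_zero]
    refine sum_congr rfl fun i hi => ?_
    have : j - i ≠ 0 := by have := mem_range.1 hi; omega
    simp [ha, coeff_one, this, mul_comm]
  have g : Y = 1 - (C (-l : ℂ) * a) ^ (m + 2) + C (-l : ℂ) * (Y * a) := by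
    rw [← geom_sum_mul_neg, ← hY]; ring
  have z : ∀ j < m + 2, coeff j ((C (-l : ℂ) * a) ^ (m + 2)) = 0 := fun j hj =>
    pow_zero_coeff (by simp [a0]) hj
  have := key hp hA h0 e A0 l0 l1 (y := fun i => coeff i Y)
    (by rw [g, map_add, map_sub, z 0 (by omega), coeff_C_mul, s]; simp) fun j hj => by
      rw [← s]
      conv_lhs => rw [g, map_add, map_sub, z _ (by omega), coeff_C_mul]
      simp [coeff_one]
  rw [← s, hY, sum_mul, map_sum] at this
  refine le_of_eq_of_le (congrArg _ (sum_congr rfl fun k _ => ?_)) this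
  rw [mul_pow, ← map_pow, mul_assoc (C _), coeff_C_mul, ← pow_succ, ← ha, neg_pow (l : ℂ)]; ring

theorem mom {β B : ℝ} (h0 : 0 < β) (h1 : β ≤ 1) {μ : ℕ → ℝ} (μ0 : μ 0 = 1)
    (hμ : ∀ k : ℕ, (k + 2) * μ (k + 1) = (k + 1 - β) * μ k) {N : ℕ} {c : ℕ → ℂ}
    (h : ∀ l : ℝ, 0 ≤ l → l ≤ 1 → ‖∑ k ∈ range N, c k * l ^ k‖ ≤ B) :
    ‖∑ k ∈ range N, c k * μ k‖ ≤ B := by
  rcases h1.eq_or_lt with rfl | h1
  · have : ∀ k, μ k = 0 ^ k := fun k => by
      induction k with
      | zero => simpa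
      | succ k ih =>
        have h2 := hμ k
        rw [ih] at h2
        rcases k with _ | k
        · simpa using h2
        · simpa [show ((k : ℝ) + 1 + 2) ≠ 0 by positivity] using h2
    simpa [this] using h 0 le_rfl zero_le_one
  have c1 : Continuous fun t : ℝ => (1 - t) ^ β :=
    (continuous_const.sub continuous_id).rpow_const fun _ => .inr h0.le
  have ii : ∀ k : ℕ, IntervalIntegrable (fun t : ℝ => t ^ (k - β) * (1 - t) ^ β)
      MeasureTheory.volume 0 1 := fun k => (intervalIntegral.intervalIntegrable_rpow'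
        (by have := k.cast_nonneg (α := ℝ); linarith)).mul_continuousOn c1.continuousOn
  obtain ⟨ν, hν⟩ : ∃ ν : ℕ → ℝ, ∀ k, ν k = ∫ t in (0 : ℝ)..1, t ^ (k - β) * (1 - t) ^ β :=
    ⟨_, fun _ => rfl⟩
  have rc : ∀ k : ℕ, (k + 2) * ν (k + 1) = (k + 1 - β) * ν k := fun k => by
    have k0 : 0 < k + 1 - β := by have := k.cast_nonneg (α := ℝ); linarith
    have := intervalIntegral.integral_eq_sub_of_hasDerivAt_of_le zero_le_one
      (f := fun t : ℝ => t ^ (k + 1 - β) * (1 - t) ^ (β + 1))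
      (f' := fun t => (k + 1 - β) * (t ^ (k - β) * (1 - t) ^ β) -
        (k + 2) * (t ^ (((k + 1 : ℕ) : ℝ) - β) * (1 - t) ^ β))
      ((continuous_id.rpow_const fun _ => .inr k0.le).mul
        ((continuous_const.sub continuous_id).rpow_const fun _ => .inr (by linarith))).continuousOn
      (fun t ht => by
        have t1 : 0 < 1 - t := by linarith [ht.2]
        refine ((Real.hasDerivAt_rpow_const (p := k + 1 - β) (.inl ht.1.ne')).mul
          (((hasDerivAt_id t).const_sub 1).rpow_const (p := β + 1) (.inl t1.ne'))).congr_deriv ?_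
        simp only [id, add_sub_cancel_right, Nat.cast_succ]
        rw [show k + 1 - β - 1 = k - β by ring, show k + 1 - β = k - β + 1 by ring,
          Real.rpow_add_one ht.1.ne', Real.rpow_add_one t1.ne']
        ring) (((ii k).const_mul _).sub ((ii (k + 1)).const_mul _))
    rw [intervalIntegral.integral_sub ((ii k).const_mul _) ((ii (k + 1)).const_mul _),
      intervalIntegral.integral_const_mul, intervalIntegral.integral_const_mul, ← hν, ← hν] at this
    simp [Real.zero_rpow k0.ne', Real.zero_rpow (show β + 1 ≠ 0 by linarith)] at this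
    linarith
  have n0 : 0 < ν 0 := hν 0 ▸ intervalIntegral.intervalIntegral_pos_of_pos_on (ii 0)
    (fun t ht => mul_pos (Real.rpow_pos_of_pos ht.1 _)
      (Real.rpow_pos_of_pos (by linarith [ht.2]) _)) one_pos
  have e : ∀ k, ν k = ν 0 * μ k := fun k => by
    induction k with
    | zero => simp [μ0]
    | succ k ih =>
      refine mul_left_cancel₀ (show (k + 2 : ℝ) ≠ 0 by positivity) ?_
      rw [rc, ih]; linear_combination -ν 0 * hμ k
  have e2 : (ν 0 : ℂ) * ∑ k ∈ range N, c k * μ k = ∫ t in (0 : ℝ)..1,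
      ∑ k ∈ range N, c k * ((t ^ (k - β) * (1 - t) ^ β : ℝ) : ℂ) := by
    rw [intervalIntegral.integral_finsetSum fun k _ => IntervalIntegrable.const_mul
      ⟨(ii k).1.ofReal, (ii k).2.ofReal⟩ _, mul_sum]
    refine sum_congr rfl fun k _ => ?_
    rw [intervalIntegral.integral_const_mul, intervalIntegral.integral_ofReal, ← hν, e k]
    push_cast; ring
  have e3 := intervalIntegral.norm_integral_le_of_norm_le zero_le_one
    (f := fun t : ℝ => ∑ k ∈ range N, c k * ((t ^ (k - β) * (1 - t) ^ β : ℝ) : ℂ))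
    (.of_forall fun t ht => by
      have w0 : 0 ≤ t ^ (((0 : ℕ) : ℝ) - β) * (1 - t) ^ β :=
        mul_nonneg (Real.rpow_nonneg ht.1.le _) (Real.rpow_nonneg (by linarith [ht.2]) _)
      refine le_of_eq_of_le ?_ (mul_le_mul_of_nonneg_right (h t ht.1.le ht.2) w0)
      rw [← Real.norm_of_nonneg w0, ← Complex.norm_real, ← norm_mul, sum_mul]
      refine congrArg _ (sum_congr rfl fun k _ => ?_)
      rw [show (k : ℝ) - β = k + ((0 : ℕ) - β) by simp [sub_eq_add_neg], Real.rpow_add ht.1,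
        Real.rpow_natCast]
      push_cast; ring) ((ii 0).const_mul B)
  rw [← e2, intervalIntegral.integral_const_mul, ← hν, norm_mul, Complex.norm_real,
    Real.norm_of_nonneg n0.le, mul_comm B] at e3
  exact le_of_mul_le_mul_left e3 n0

theorem ode {a Q : ℂ⟦X⟧} {β : ℂ} {b : ℕ → ℂ} (a0 : constantCoeff a = 0) (Q0 : constantCoeff Q = 1)
    (h : (1 + a) * d⁄dX ℂ Q = C β * d⁄dX ℂ a * Q) (b0 : b 0 = 1)
    (hb : ∀ k : ℕ, (k + 1) * b (k + 1) = (β - k) * b k) (N : ℕ) :
    ∀ k ≤ N, coeff k Q = ∑ j ∈ range (N + 1), b j * coeff k (a ^ j) := by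
  have s : ∀ N : ℕ, (1 + a) * d⁄dX ℂ (∑ j ∈ range (N + 1), C (b j) * a ^ j) -
      C β * d⁄dX ℂ a * ∑ j ∈ range (N + 1), C (b j) * a ^ j =
        C ((N - β) * b N) * d⁄dX ℂ a * a ^ N := fun N => by
    induction N with
    | zero => simp [b0]
    | succ N ih =>
      have e := congrArg (C (R := ℂ)) (hb N)
      rw [sum_range_succ, map_add, Derivation.leibniz, Derivation.leibniz_pow, derivative_C]
      simp only [map_mul, map_add, map_sub, map_natCast, map_one, smul_eq_mul, nsmul_eq_mul,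
        Nat.add_sub_cancel, Nat.cast_succ] at e ih ⊢
      linear_combination ih + a ^ N * d⁄dX ℂ a * e
  obtain ⟨D, hD⟩ : ∃ D, D = Q - ∑ j ∈ range (N + 1), C (b j) * a ^ j := ⟨_, rfl⟩
  have eq : d⁄dX ℂ D = C β * d⁄dX ℂ a * D - a * d⁄dX ℂ D -
      C ((N - β) * b N) * d⁄dX ℂ a * a ^ N := by
    rw [hD, map_sub]; linear_combination h - s N
  have z : ∀ k ≤ N, coeff k D = 0 := fun k => by
    induction k using Nat.strong_induction_on with
    | _ k ih =>
      intro hk
      rcases k with _ | k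
      · simp [hD, sum_range_succ', a0, Q0, b0]
      · have := congrArg (coeff k) eq
        rw [coeff_derivative, map_sub, map_sub, coeff_mul, coeff_mul, coeff_mul, sum_eq_zero,
          sum_eq_zero, sum_eq_zero] at this
        · simpa [show (k : ℂ) + 1 ≠ 0 by exact_mod_cast k.succ_ne_zero] using this
        · intro x hx
          rw [pow_zero_coeff a0 (by have := mem_antidiagonal.1 hx; omega), mul_zero]
        · intro x hx
          have hx := mem_antidiagonal.1 hx
          rcases Nat.eq_zero_or_pos x.1 with h | h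
          · simp [h, a0]
          · rw [coeff_derivative, ih _ (by omega) (by omega)]; simp
        · intro x hx
          have hx := mem_antidiagonal.1 hx
          rw [ih _ (by omega) (by omega), mul_zero]
  intro k hk
  simpa [hD, sub_eq_zero] using z k hk

end Pool.Agent.H.MP_7a60ac_an
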